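import Mathlib

/-!
The matrix theorem (MP_ca7d6d_co, step (1)): a family of columns with many entries in few rows
contains the N shape (k columns, lower entries weakly increasing, middle entries weakly
decreasing, upper entries weakly increasing, in the order of the lower entries).
-/

set_option autoImplicit false

namespace PCY

/-- nested chain of `j + 1` pairs of entries which ends at the pair `r < r'` of the column `x`. -/
def Ch (E : ℕ → Finset ℕ) : ℕ → ℕ → ℕ → ℕ → Prop
  | 0, _, _, _ => True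
  | j + 1, x, r, r' => ∃ x' < x, ∃ s ∈ E x', ∃ s' ∈ E x', s < s' ∧ r ≤ s ∧ s' ≤ r' ∧ Ch E j x' s s'

theorem Ch.wid {E : ℕ → Finset ℕ} {j x r r' q q' : ℕ} (h : Ch E j x r r') (h1 : q ≤ r)
    (h2 : r' ≤ q') : Ch E j x q q' := by
  cases j with
  | zero => trivial
  | succ j =>
    obtain ⟨x', hx, s, hs, s', hs', h3, h4, h5, h6⟩ := h
    exact ⟨x', hx, s, hs, s', hs', h3, h1.trans h4, h5.trans h2, h6⟩

/-- window lemma. -/
theorem Ch.window {E : ℕ → Finset ℕ} (x : ℕ) (w : ℕ → ℕ) :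
    ∀ (i p : ℕ), ¬ Ch E i x (w p) (w (p + 3 ^ i)) →
      ∃ j < i, ∃ q0 q1 q2 q3, p ≤ q0 ∧ q0 < q1 ∧ q1 < q2 ∧ q2 < q3 ∧ q3 ≤ p + 3 ^ i ∧
        Ch E j x (w q0) (w q1) ∧ Ch E j x (w q1) (w q2) ∧ Ch E j x (w q2) (w q3) ∧
        ¬ Ch E (j + 1) x (w q0) (w q3) := by
  intro i
  induction i with
  | zero => intro p h; exact absurd trivial h
  | succ i ih =>
    intro p h
    have hp : 0 < 3 ^ i := by positivity
    have e3 : 3 ^ (i + 1) = 3 ^ i + 3 ^ i + 3 ^ i := by rw [pow_succ]; ring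
    by_cases h1 : Ch E i x (w p) (w (p + 3 ^ i))
    · by_cases h2 : Ch E i x (w (p + 3 ^ i)) (w (p + 3 ^ i + 3 ^ i))
      · by_cases h3 : Ch E i x (w (p + 3 ^ i + 3 ^ i)) (w (p + 3 ^ i + 3 ^ i + 3 ^ i))
        · refine ⟨i, Nat.lt_succ_self i, p, p + 3 ^ i, p + 3 ^ i + 3 ^ i,
            p + 3 ^ i + 3 ^ i + 3 ^ i, le_refl _, by omega, by omega, by omega, by omega, h1, h2,
            h3, ?_⟩
          have e4 : p + 3 ^ (i + 1) = p + 3 ^ i + 3 ^ i + 3 ^ i := by omega
          rwa [e4] at h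
        · obtain ⟨j, hj, q0, q1, q2, q3, a1, a2, a3, a4, a5, a6⟩ := ih (p + 3 ^ i + 3 ^ i) h3
          exact ⟨j, by omega, q0, q1, q2, q3, by omega, a2, a3, a4, by omega, a6⟩
      · obtain ⟨j, hj, q0, q1, q2, q3, a1, a2, a3, a4, a5, a6⟩ := ih (p + 3 ^ i) h2
        exact ⟨j, by omega, q0, q1, q2, q3, by omega, a2, a3, a4, by omega, a6⟩
    · obtain ⟨j, hj, q0, q1, q2, q3, a1, a2, a3, a4, a5, a6⟩ := ih p h1
      exact ⟨j, by omega, q0, q1, q2, q3, by omega, a2, a3, a4, by omega, a6⟩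

/-- the combinatorial lemma: a family of quadruples in which a later hull contains at most one
point of an earlier quadruple has at most `2 (a - 1)` members. -/
theorem comb (a : ℕ) (C : Finset ℕ) (e0 e1 e2 e3 : ℕ → ℕ)
    (h01 : ∀ x ∈ C, e0 x < e1 x) (h12 : ∀ x ∈ C, e1 x < e2 x) (h23 : ∀ x ∈ C, e2 x < e3 x)
    (ha : ∀ x ∈ C, e3 x < a)
    (g0 : ∀ x ∈ C, ∀ y ∈ C, x < y → ¬ (e0 y ≤ e0 x ∧ e1 x ≤ e3 y))
    (g1 : ∀ x ∈ C, ∀ y ∈ C, x < y → ¬ (e0 y ≤ e1 x ∧ e2 x ≤ e3 y))
    (g2 : ∀ x ∈ C, ∀ y ∈ C, x < y → ¬ (e0 y ≤ e2 x ∧ e3 x ≤ e3 y)) :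
    C.card ≤ 2 * (a - 1) := by
  classical
  let Free : ℕ → Prop := fun x => ∃ g, e1 x ≤ g ∧ g < e2 x ∧
    ∀ y ∈ C, x < y → ¬ (e0 y ≤ g ∧ g + 1 ≤ e3 y)
  let CF := C.filter Free
  let CN := C.filter (fun x => ¬ Free x)
  have hsum : CF.card + CN.card = C.card := Finset.card_filter_add_card_filter_not _
  -- free ones
  have hF : CF.card ≤ a - 1 := by
    have hch : ∀ x ∈ CF, ∃ g, e1 x ≤ g ∧ g < e2 x ∧
        ∀ y ∈ C, x < y → ¬ (e0 y ≤ g ∧ g + 1 ≤ e3 y) := fun x hx => (Finset.mem_filter.1 hx).2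
    choose! g hg1 hg2 hg3 using hch
    have hmaps : ∀ x ∈ CF, g x ∈ Finset.range (a - 1) := by
      intro x hx
      have hxC := (Finset.mem_filter.1 hx).1
      have := hg2 x hx; have := h23 x hxC; have := ha x hxC
      rw [Finset.mem_range]; omega
    have hinj : Set.InjOn g CF := by
      have key : ∀ x ∈ CF, ∀ y ∈ CF, x < y → g x ≠ g y := by
        intro x hx y hy hxy he
        have hyC := (Finset.mem_filter.1 hy).1
        apply hg3 x hx y hyC hxy
        have := hg1 y hy; have := hg2 y hy; have := h01 y hyC; have := h23 y hyC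
        omega
      intro x hx y hy he
      rcases lt_trichotomy x y with h | h | h
      · exact absurd he (key x hx y hy h)
      · exact h
      · exact absurd he.symm (key y hy x hx h)
    have := Finset.card_le_card_of_injOn g hmaps hinj
    rwa [Finset.card_range] at this
  -- the two children
  have hN : ∀ x ∈ CN, ∀ g, e1 x ≤ g → g < e2 x → ∃ y ∈ C, x < y ∧ e0 y ≤ g ∧ g + 1 ≤ e3 y := by
    intro x hx g h1 h2
    by_contra hc
    push Not at hc
    exact (Finset.mem_filter.1 hx).2 ⟨g, h1, h2, fun y hy hxy h => by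
      have := hc y hy hxy h.1; omega⟩
  have hy1 : ∀ x ∈ CN, ∃ y, y ∈ C ∧ x < y ∧ e0 y ≤ e1 x ∧ e1 x ≤ e3 y ∧
      ∀ z ∈ C, x < z → z < y → ¬ (e0 z ≤ e1 x ∧ e1 x ≤ e3 z) := by
    intro x hx
    have hxC := (Finset.mem_filter.1 hx).1
    have hex : ∃ y, y ∈ C ∧ x < y ∧ e0 y ≤ e1 x ∧ e1 x ≤ e3 y := by
      obtain ⟨y, hy, h1, h2, h3⟩ := hN x hx (e1 x) (le_refl _) (h12 x hxC)
      exact ⟨y, hy, h1, h2, by omega⟩
    refine ⟨Nat.find hex, (Nat.find_spec hex).1, (Nat.find_spec hex).2.1,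
      (Nat.find_spec hex).2.2.1, (Nat.find_spec hex).2.2.2, ?_⟩
    intro z hz h1 h2 h3
    exact Nat.find_min hex h2 ⟨hz, h1, h3.1, h3.2⟩
  have hy2 : ∀ x ∈ CN, ∃ y, y ∈ C ∧ x < y ∧ e0 y ≤ e2 x ∧ e2 x ≤ e3 y ∧
      ∀ z ∈ C, x < z → z < y → ¬ (e0 z ≤ e2 x ∧ e2 x ≤ e3 z) := by
    intro x hx
    have hxC := (Finset.mem_filter.1 hx).1
    have hex : ∃ y, y ∈ C ∧ x < y ∧ e0 y ≤ e2 x ∧ e2 x ≤ e3 y := by
      have h4 := h12 x hxC
      obtain ⟨y, hy, h1, h2, h3⟩ := hN x hx (e2 x - 1) (by omega) (by omega)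
      exact ⟨y, hy, h1, by omega, by omega⟩
    refine ⟨Nat.find hex, (Nat.find_spec hex).1, (Nat.find_spec hex).2.1,
      (Nat.find_spec hex).2.2.1, (Nat.find_spec hex).2.2.2, ?_⟩
    intro z hz h1 h2 h3
    exact Nat.find_min hex h2 ⟨hz, h1, h3.1, h3.2⟩
  choose! y1 b1 b2 b3 b4 b5 using hy1
  choose! y2 c1 c2 c3 c4 c5 using hy2
  -- parent predicate: `z` is the last member before `y` whose inner interval meets the hull of `y`
  let Par : ℕ → ℕ → Prop := fun z y => z ∈ C ∧ z < y ∧ e0 y ≤ e2 z ∧ e1 z ≤ e3 y ∧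
    ∀ u ∈ C, z < u → u < y → ¬ (e0 y ≤ e2 u ∧ e1 u ≤ e3 y)
  have hparu : ∀ z z' y, Par z y → Par z' y → z = z' := by
    intro z z' y h h'
    obtain ⟨h1, h2, h3, h4, h5⟩ := h
    obtain ⟨h1', h2', h3', h4', h5'⟩ := h'
    rcases lt_trichotomy z z' with h | h | h
    · exact absurd ⟨h3', h4'⟩ (h5 z' h1' h h2')
    · exact h
    · exact absurd ⟨h3, h4⟩ (h5' z h1 h h2)
  have hins : ∀ z ∈ C, ∀ y ∈ C, z < y → e0 y ≤ e2 z → e1 z ≤ e3 y → e0 z < e0 y ∧ e3 y < e3 z := by
    intro z hz y hy hzy h1 h2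
    have k0 := g0 z hz y hy hzy
    have k1 := g1 z hz y hy hzy
    have k2 := g2 z hz y hy hzy
    have := h12 z hz
    constructor
    · by_contra hc
      exact k0 ⟨by omega, h2⟩
    · by_contra hc
      exact k2 ⟨h1, by omega⟩
  have hp1 : ∀ x ∈ CN, Par x (y1 x) := by
    intro x hx
    have hxC := (Finset.mem_filter.1 hx).1
    have k12 := h12 x hxC
    refine ⟨hxC, b2 x hx, by have := b3 x hx; omega, b4 x hx, ?_⟩
    intro u hu hxu huy hc
    have hi := hins u hu (y1 x) (b1 x hx) huy hc.1 hc.2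
    apply b5 x hx u hu hxu huy
    have := b3 x hx; have := b4 x hx
    omega
  have hp2 : ∀ x ∈ CN, Par x (y2 x) := by
    intro x hx
    have hxC := (Finset.mem_filter.1 hx).1
    have k12 := h12 x hxC
    refine ⟨hxC, c2 x hx, c3 x hx, by have := c4 x hx; omega, ?_⟩
    intro u hu hxu huy hc
    have hi := hins u hu (y2 x) (c1 x hx) huy hc.1 hc.2
    apply c5 x hx u hu hxu huy
    have := c3 x hx; have := c4 x hx
    omega
  have hne : ∀ x ∈ CN, ∀ x' ∈ CN, y1 x ≠ y2 x' := by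
    intro x hx x' hx' he
    have e : x = x' := hparu x x' (y1 x) (hp1 x hx) (he ▸ hp2 x' hx')
    subst e
    have hxC := (Finset.mem_filter.1 hx).1
    apply g1 x hxC (y1 x) (b1 x hx) (b2 x hx)
    have h1 := b3 x hx
    have h2 := c4 x hx
    rw [← he] at h2
    exact ⟨h1, h2⟩
  have hi1 : Set.InjOn y1 CN := fun x hx x' hx' he =>
    hparu x x' (y1 x) (hp1 x hx) (he ▸ hp1 x' hx')
  have hi2 : Set.InjOn y2 CN := fun x hx x' hx' he =>
    hparu x x' (y2 x) (hp2 x hx) (he ▸ hp2 x' hx')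
  have hdis : Disjoint (CN.image y1) (CN.image y2) := by
    rw [Finset.disjoint_left]
    intro z hz hz'
    obtain ⟨x, hx, rfl⟩ := Finset.mem_image.1 hz
    obtain ⟨x', hx', he⟩ := Finset.mem_image.1 hz'
    exact hne x hx x' hx' he.symm
  have hsub : CN.image y1 ∪ CN.image y2 ⊆ C := by
    intro z hz
    rcases Finset.mem_union.1 hz with h | h
    · obtain ⟨x, hx, rfl⟩ := Finset.mem_image.1 h
      exact b1 x hx
    · obtain ⟨x, hx, rfl⟩ := Finset.mem_image.1 h
      exact c1 x hx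
  have hcard := Finset.card_le_card hsub
  rw [Finset.card_union_of_disjoint hdis, Finset.card_image_of_injOn hi1,
    Finset.card_image_of_injOn hi2] at hcard
  omega

/-- unfolding a chain. -/
theorem Ch.unfold {E : ℕ → Finset ℕ} : ∀ (j x r r' : ℕ), r ∈ E x → r' ∈ E x → r < r' →
    Ch E j x r r' → ∃ X m h : ℕ → ℕ, X j = x ∧ m j = r ∧ h j = r' ∧
      (∀ i i', i < i' → i' ≤ j → X i < X i') ∧
      (∀ i i', i ≤ i' → i' ≤ j → m i' ≤ m i) ∧ (∀ i i', i ≤ i' → i' ≤ j → h i ≤ h i') ∧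
      (∀ i ≤ j, m i ∈ E (X i) ∧ h i ∈ E (X i) ∧ m i < h i) := by
  intro j
  induction j with
  | zero =>
    intro x r r' hr hr' hlt _
    refine ⟨fun _ => x, fun _ => r, fun _ => r', rfl, rfl, rfl, ?_, ?_, ?_, ?_⟩
    · intro i i' h1 h2; omega
    · intro i i' h1 h2; exact le_refl _
    · intro i i' h1 h2; exact le_refl _
    · intro i h1; exact ⟨hr, hr', hlt⟩
  | succ j ih =>
    intro x r r' hr hr' hlt hch
    obtain ⟨x', hx, s, hs, s', hs', h3, h4, h5, h6⟩ := hch
    obtain ⟨X, m, h, a1, a2, a3, a4, a5, a6, a7⟩ := ih x' s s' hs hs' h3 h6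
    refine ⟨fun i => if i ≤ j then X i else x, fun i => if i ≤ j then m i else r,
      fun i => if i ≤ j then h i else r', by simp, by simp, by simp, ?_, ?_, ?_, ?_⟩
    · intro i i' h1 h2
      by_cases hi : i' ≤ j
      · simp only [if_pos hi, if_pos (show i ≤ j by omega)]
        exact a4 i i' h1 hi
      · simp only [if_neg hi, if_pos (show i ≤ j by omega)]
        rcases Nat.lt_or_ge i j with h8 | h8
        · have := a4 i j h8 (le_refl _); omega
        · have : i = j := by omega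
          subst this; omega
    · intro i i' h1 h2
      by_cases hi : i' ≤ j
      · simp only [if_pos hi, if_pos (show i ≤ j by omega)]
        exact a5 i i' h1 hi
      · by_cases hi2 : i ≤ j
        · simp only [if_neg hi, if_pos hi2]
          have := a5 i j hi2 (le_refl _); omega
        · simp only [if_neg hi, if_neg hi2]; exact le_refl _
    · intro i i' h1 h2
      by_cases hi : i' ≤ j
      · simp only [if_pos hi, if_pos (show i ≤ j by omega)]
        exact a6 i i' h1 hi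
      · by_cases hi2 : i ≤ j
        · simp only [if_neg hi, if_pos hi2]
          have := a6 i j hi2 (le_refl _); omega
        · simp only [if_neg hi, if_neg hi2]; exact le_refl _
    · intro i h1
      by_cases hi : i ≤ j
      · simp only [if_pos hi]; exact a7 i hi
      · simp only [if_neg hi]; exact ⟨hr, hr', hlt⟩

/-- the core: columns `0 .. b-1` in a fixed order. -/
theorem core (a b k : ℕ) (hk : 1 ≤ k) (E : ℕ → Finset ℕ)
    (hE : ∀ x < b, ∀ r ∈ E x, r < a) (hK : ∀ x < b, 3 ^ (k - 1) + 1 ≤ (E x).card)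
    (hb : 2 * (k - 1) * (a - 1) < b) :
    ∃ X m h : ℕ → ℕ, (∀ i i', i < i' → i' < k → X i < X i') ∧ (∀ i < k, X i < b) ∧
      (∀ i i', i ≤ i' → i' < k → m i' ≤ m i) ∧ (∀ i i', i ≤ i' → i' < k → h i ≤ h i') ∧
      (∀ i < k, m i ∈ E (X i) ∧ h i ∈ E (X i) ∧ m i < h i) := by
  classical
  by_cases hex : ∃ x < b, ∃ r ∈ E x, ∃ r' ∈ E x, r < r' ∧ Ch E (k - 1) x r r'
  · obtain ⟨x, hx, r, hr, r', hr', hlt, hch⟩ := hex
    obtain ⟨X, m, h, a1, a2, a3, a4, a5, a6, a7⟩ := Ch.unfold (k - 1) x r r' hr hr' hlt hch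
    refine ⟨X, m, h, fun i i' h1 h2 => a4 i i' h1 (by omega), ?_,
      fun i i' h1 h2 => a5 i i' h1 (by omega), fun i i' h1 h2 => a6 i i' h1 (by omega),
      fun i h1 => a7 i (by omega)⟩
    intro i hi
    rcases Nat.lt_or_ge i (k - 1) with h8 | h8
    · have := a4 i (k - 1) h8 (le_refl _)
      omega
    · have : i = k - 1 := by omega
      subst this; omega
  · exfalso
    push Not at hex
    -- choose the quadruples
    have hq : ∀ x, x < b → ∃ (j : ℕ) (e0 e1 e2 e3 : ℕ), j < k - 1 ∧ e0 ∈ E x ∧ e1 ∈ E x ∧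
        e2 ∈ E x ∧ e3 ∈ E x ∧ e0 < e1 ∧ e1 < e2 ∧ e2 < e3 ∧ Ch E j x e0 e1 ∧ Ch E j x e1 e2 ∧
        Ch E j x e2 e3 ∧ ¬ Ch E (j + 1) x e0 e3 := by
      intro x hx
      have hc := hK x hx
      let o := (E x).orderEmbOfFin rfl
      let w : ℕ → ℕ := fun t => if ht : t < (E x).card then o ⟨t, ht⟩ else 0
      have hw : ∀ t, t < (E x).card → w t ∈ E x := by
        intro t ht
        simp only [w, dif_pos ht]
        exact Finset.orderEmbOfFin_mem _ _ _
      have hwlt : ∀ t t', t < t' → t' < (E x).card → w t < w t' := by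
        intro t t' h1 h2
        simp only [w, dif_pos h2, dif_pos (h1.trans h2)]
        exact o.strictMono (by simpa using h1)
      have h0 : ¬ Ch E (k - 1) x (w 0) (w (0 + 3 ^ (k - 1))) := by
        have hp : 0 < 3 ^ (k - 1) := by positivity
        exact hex x hx (w 0) (hw 0 (by omega)) _ (hw _ (by omega)) (hwlt _ _ (by omega) (by omega))
      obtain ⟨j, hj, q0, q1, q2, q3, a1, a2, a3, a4, a5, a6, a7, a8, a9⟩ :=
        Ch.window x w (k - 1) 0 h0
      exact ⟨j, w q0, w q1, w q2, w q3, hj, hw _ (by omega), hw _ (by omega), hw _ (by omega),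
        hw _ (by omega), hwlt _ _ a2 (by omega), hwlt _ _ a3 (by omega), hwlt _ _ a4 (by omega),
        a6, a7, a8, a9⟩
    choose! J e0 e1 e2 e3 hJ m0 m1 m2 m3 l01 l12 l23 ch01 ch12 ch23 hno using hq
    have hcls : ∀ j ∈ Finset.range (k - 1),
        ((Finset.range b).filter (fun x => J x = j)).card ≤ 2 * (a - 1) := by
      intro j _
      have hmem : ∀ x ∈ (Finset.range b).filter (fun x => J x = j), x < b ∧ J x = j := by
        intro x hx
        rw [Finset.mem_filter, Finset.mem_range] at hx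
        exact hx
      refine comb a _ e0 e1 e2 e3 (fun x hx => l01 x (hmem x hx).1) (fun x hx => l12 x (hmem x hx).1)
        (fun x hx => l23 x (hmem x hx).1) (fun x hx => hE x (hmem x hx).1 _ (m3 x (hmem x hx).1))
        ?_ ?_ ?_
      · intro x hx y hy hxy hc
        have hx' := hmem x hx; have hy' := hmem y hy
        apply hno y hy'.1
        rw [hy'.2]
        refine ⟨x, hxy, e0 x, m0 x hx'.1, e1 x, m1 x hx'.1, l01 x hx'.1, hc.1, hc.2, ?_⟩
        have := ch01 x hx'.1
        rwa [hx'.2] at this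
      · intro x hx y hy hxy hc
        have hx' := hmem x hx; have hy' := hmem y hy
        apply hno y hy'.1
        rw [hy'.2]
        refine ⟨x, hxy, e1 x, m1 x hx'.1, e2 x, m2 x hx'.1, l12 x hx'.1, hc.1, hc.2, ?_⟩
        have := ch12 x hx'.1
        rwa [hx'.2] at this
      · intro x hx y hy hxy hc
        have hx' := hmem x hx; have hy' := hmem y hy
        apply hno y hy'.1
        rw [hy'.2]
        refine ⟨x, hxy, e2 x, m2 x hx'.1, e3 x, m3 x hx'.1, l23 x hx'.1, hc.1, hc.2, ?_⟩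
        have := ch23 x hx'.1
        rwa [hx'.2] at this
    have hmaps : ∀ x ∈ Finset.range b, J x ∈ Finset.range (k - 1) := by
      intro x hx
      rw [Finset.mem_range] at hx ⊢
      exact hJ x hx
    have h1 := Finset.card_eq_sum_card_fiberwise hmaps
    have h2 := Finset.sum_le_sum hcls
    rw [← h1, Finset.sum_const, Finset.card_range, Finset.card_range, smul_eq_mul] at h2
    have e5 : (k - 1) * (2 * (a - 1)) = 2 * (k - 1) * (a - 1) := by ring
    omega

/-- **the matrix theorem.** -/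
theorem matrix {ι : Type*} [DecidableEq ι] (a k : ℕ) (T : Finset ι) (E : ι → Finset ℕ)
    (hE : ∀ x ∈ T, ∀ r ∈ E x, r < a) (hK : ∀ x ∈ T, 3 ^ (k - 1) + 2 ≤ (E x).card)
    (hb : 2 * (k - 1) * (a - 1) < T.card) :
    ∃ (x : Fin k → ι) (l m h : Fin k → ℕ), Function.Injective x ∧ (∀ i, x i ∈ T) ∧
      (∀ i, l i ∈ E (x i) ∧ m i ∈ E (x i) ∧ h i ∈ E (x i)) ∧ Monotone l ∧ Antitone m ∧
      Monotone h ∧ (∀ i j, l i < m j) ∧ (∀ i j, m i < h j) := by
  classical
  rcases Nat.eq_zero_or_pos k with hk0 | hk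
  · subst hk0
    exact ⟨fun i => i.elim0, fun i => i.elim0, fun i => i.elim0, fun i => i.elim0,
      fun i => i.elim0, fun i => i.elim0, fun i => i.elim0, fun i => i.elim0, fun i => i.elim0,
      fun i => i.elim0, fun i => i.elim0, fun i => i.elim0⟩
  have hpow : 0 < 3 ^ (k - 1) := by positivity
  -- first entry
  have hfe : ∀ x ∈ T, ∃ f ∈ E x, ∀ r ∈ E x, f ≤ r := by
    intro x hx
    have hne : (E x).Nonempty := by
      rw [← Finset.card_pos]; have := hK x hx; omega
    exact ⟨(E x).min' hne, Finset.min'_mem _ _, fun r hr => Finset.min'_le _ _ hr⟩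
  choose! f hf1 hf2 using hfe
  -- sort the columns by the first entry
  let e0 : Fin T.card ≃ T := (Fintype.equivFinOfCardEq (by simp)).symm
  let F : Fin T.card → ℕ := fun i => f (e0 i)
  let c : Fin T.card → ι := fun i => (e0 (Tuple.sort F i) : ι)
  have hcT : ∀ i, c i ∈ T := fun i => (e0 (Tuple.sort F i)).2
  have hcinj : Function.Injective c := by
    intro i j h
    have h1 : e0 (Tuple.sort F i) = e0 (Tuple.sort F j) := Subtype.ext h
    exact (Tuple.sort F).injective (e0.injective h1)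
  have hcmono : ∀ i j, i ≤ j → f (c i) ≤ f (c j) := by
    intro i j hij
    exact Tuple.monotone_sort F hij
  have hT : 0 < T.card := by omega
  let col : ℕ → ι := fun t => if ht : t < T.card then c ⟨t, ht⟩ else c ⟨0, hT⟩
  have hcol : ∀ t (ht : t < T.card), col t = c ⟨t, ht⟩ := fun t ht => dif_pos ht
  have hcore := core a T.card k hk (fun t => (E (col t)).erase (f (col t))) ?_ ?_ hb
  · obtain ⟨X, m, h, a1, a2, a3, a4, a5⟩ := hcore
    have hlm : ∀ i < k, f (col (X i)) < m i := by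
      intro i hi
      obtain ⟨b1, b2, b3⟩ := a5 i hi
      rw [Finset.mem_erase] at b1
      have hT' : col (X i) ∈ T := by
        rw [hcol _ (a2 i hi)]; exact hcT _
      have := hf2 _ hT' _ b1.2
      omega
    have hll : ∀ i i', i ≤ i' → i' < k → f (col (X i)) ≤ f (col (X i')) := by
      intro i i' h1 h2
      rw [hcol _ (a2 i (by omega)), hcol _ (a2 i' h2)]
      apply hcmono
      rw [Fin.mk_le_mk]
      rcases Nat.lt_or_ge i i' with h8 | h8
      · exact (a1 i i' h8 h2).le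
      · have : i = i' := by omega
        subst this; exact le_refl _
    refine ⟨fun i => col (X i), fun i => f (col (X i)), fun i => m i, fun i => h i,
      ?_, ?_, ?_, ?_, ?_, ?_, ?_, ?_⟩
    · intro i j hij
      simp only at hij
      rw [hcol _ (a2 i i.2), hcol _ (a2 j j.2)] at hij
      have h1 := hcinj hij
      rw [Fin.mk.injEq] at h1
      rcases lt_trichotomy (i : ℕ) (j : ℕ) with h8 | h8 | h8
      · have := a1 i j h8 j.2; omega
      · exact Fin.ext h8
      · have := a1 j i h8 i.2; omega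
    · intro i
      simp only
      rw [hcol _ (a2 i i.2)]; exact hcT _
    · intro i
      have hT' : col (X i) ∈ T := by
        rw [hcol _ (a2 i i.2)]; exact hcT _
      obtain ⟨b1, b2, b3⟩ := a5 i i.2
      exact ⟨hf1 _ hT', (Finset.mem_erase.1 b1).2, (Finset.mem_erase.1 b2).2⟩
    · intro i j hij
      exact hll i j hij j.2
    · intro i j hij
      exact a3 i j hij j.2
    · intro i j hij
      exact a4 i j hij j.2
    · intro i j
      simp only
      have h1 := hll i (k - 1) (by omega) (by omega)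
      have h2 := hlm (k - 1) (by omega)
      have h3 := a3 j (k - 1) (by omega) (by omega)
      omega
    · intro i j
      simp only
      have h1 := a3 0 i (by omega) i.2
      have h2 := (a5 0 (by omega)).2.2
      have h3 := a4 0 j (by omega) j.2
      omega
  · intro t ht r hr
    rw [Finset.mem_erase] at hr
    apply hE (col t) _ r hr.2
    rw [hcol t ht]; exact hcT _
  · intro t ht
    have hT' : col t ∈ T := by
      rw [hcol t ht]; exact hcT _
    have h1 := hK _ hT'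
    rw [Finset.card_erase_of_mem (hf1 _ hT')]
    omega

end PCY
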